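import Pool.Agent.L0h7.MS.Stm

/-!
Finitely presented groups and interior points of the space of marked groups.
-/

set_option autoImplicit false

open Function

namespace Pool.Agent.L0h91.MS

open Pool.Agent.L0h7.MS

theorem t_GIN (hN : S_NBH) (hO : S_OPN) : S_GIN := by
  intro P hP r
  constructor
  · rintro ⟨G, iG, hfp, hinf, hPG, f, hf⟩
    have e : (FreeGroup (Fin r) ⧸ f.ker) ≃* G := QuotientGroup.quotientKerEquivOfSurjective f hf
    have hfp' : Group.IsFinitelyPresented (FreeGroup (Fin r) ⧸ f.ker) :=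
      Group.IsFinitelyPresented.equiv e.symm
    have hinf' : Infinite (FreeGroup (Fin r) ⧸ f.ker) := Infinite.of_injective e.symm e.symm.injective
    have hFG : Group.FG G := Group.fg_of_surjective hf
    obtain ⟨S, hS1, hS2⟩ := hN r f.ker hfp'
    refine ⟨⟨f.ker, inferInstance, hinf'⟩, mem_interior.2 ?_⟩
    refine ⟨⋂ s ∈ S, {N : Marked r | s ∈ N.1}, ?_, ?_, ?_⟩
    · intro N' hN'
      have hle : f.ker ≤ N'.1 := hS2 N'.1 N'.2.1 (Set.mem_iInter₂.1 hN')
      have h1 : Surjective ((QuotientGroup.map f.ker N'.1 (MonoidHom.id _) hle).comp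
          e.symm.toMonoidHom) := by
        intro y
        obtain ⟨w, rfl⟩ := QuotientGroup.mk_surjective y
        refine ⟨e (QuotientGroup.mk w), ?_⟩
        show QuotientGroup.map f.ker N'.1 (MonoidHom.id _) hle (e.symm (e (QuotientGroup.mk w))) = _
        rw [e.symm_apply_apply]
        rfl
      exact hP G (grp N') _ hFG h1 N'.2.2 hPG
    · exact isOpen_biInter_finset fun s _ => (hO.1 r s).isOpen
    · exact Set.mem_iInter₂.2 fun s hs => hS1 s hs
  · rintro ⟨N, hNi⟩
    obtain ⟨S, hS⟩ := hO.2 r _ isOpen_interior N hNi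
    classical
    set T : Set (FreeGroup (Fin r)) := {w | w ∈ S ∧ w ∈ N.1} with hT
    have hTf : T.Finite := (S.finite_toSet).subset fun w hw => hw.1
    have hle : Subgroup.normalClosure T ≤ N.1 :=
      Subgroup.normalClosure_le_normal fun w hw => hw.2
    have hinf : Infinite (FreeGroup (Fin r) ⧸ Subgroup.normalClosure T) := by
      have h1 : Surjective (QuotientGroup.map (Subgroup.normalClosure T) N.1 (MonoidHom.id _) hle) := by
        intro y
        obtain ⟨w, rfl⟩ := QuotientGroup.mk_surjective y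
        exact ⟨QuotientGroup.mk w, rfl⟩
      have := N.2.2
      exact Infinite.of_surjective _ h1
    have h2 := interior_subset (hS ⟨Subgroup.normalClosure T, inferInstance, hinf⟩ fun w hw =>
      ⟨fun h => hle h, fun h => Subgroup.subset_normalClosure ⟨hw, h⟩⟩)
    refine ⟨FreeGroup (Fin r) ⧸ Subgroup.normalClosure T, inferInstance, ?_, hinf, h2,
      QuotientGroup.mk' _, QuotientGroup.mk'_surjective _⟩
    exact Group.IsFinitelyPresented.quotient _ ⟨T, hTf, rfl⟩

end Pool.Agent.L0h91.MS
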