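import Pool.Agent.L0h7.MS.Stm

/-!
The kernel of a homomorphism from a finitely generated onto a finitely presented group is the normal
closure of a finite set (same argument as in `Pool.Agent.Helper294.HallC.FngOfFp`).
-/

set_option autoImplicit false

namespace Pool.Agent.L0h91.MS

open Pool.Agent.L0h7.MS

theorem fng_of_fp_aux {G Q : Type} [Group G] [Group Q] (T : Set G) (hTf : T.Finite)
    (hT : Subgroup.closure T = ⊤) (n : ℕ) (φ : FreeGroup (Fin n) →* Q)
    (hφ : Function.Surjective φ) (R : Set (FreeGroup (Fin n))) (hR : R.Finite)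
    (hk : Subgroup.normalClosure R = φ.ker) (f : G →* Q) (hf : Function.Surjective f) :
    f.ker.IsFinitelyNormallyGenerated := by
  choose L hl using hf
  obtain ⟨ψ, hψ⟩ : ∃ ψ : FreeGroup (Fin n) →* G, ∀ u, f (ψ u) = φ u := by
    refine ⟨FreeGroup.lift (fun i => L (φ (FreeGroup.of i))), ?_⟩
    intro u
    have h : f.comp (FreeGroup.lift (fun i => L (φ (FreeGroup.of i)))) = φ := by
      ext i
      simp [hl]
    exact DFunLike.congr_fun h u
  choose U hU using hφ
  obtain ⟨S, hS⟩ : ∃ S : Set G, S = ψ '' R ∪ (fun g => g * (ψ (U (f g)))⁻¹) '' T := ⟨_, rfl⟩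
  have hSf : S.Finite := by rw [hS]; exact (hR.image _).union (hTf.image _)
  have hSk : S ⊆ f.ker := by
    rw [hS]
    rintro x (⟨r, hr, rfl⟩ | ⟨g, hg, rfl⟩)
    · rw [SetLike.mem_coe, MonoidHom.mem_ker, hψ]
      have h : r ∈ φ.ker := by rw [← hk]; exact Subgroup.subset_normalClosure hr
      exact h
    · rw [SetLike.mem_coe, MonoidHom.mem_ker, map_mul, map_inv, hψ, hU, mul_inv_cancel]
  refine ⟨S, hSf, le_antisymm (Subgroup.normalClosure_le_normal hSk) ?_⟩
  obtain ⟨N, hN⟩ : ∃ N : Subgroup G, N = Subgroup.normalClosure S := ⟨_, rfl⟩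
  have hNn : N.Normal := by rw [hN]; infer_instance
  have hSN : S ⊆ N := by rw [hN]; exact Subgroup.subset_normalClosure
  have hNk : N ≤ f.ker := by rw [hN]; exact Subgroup.normalClosure_le_normal hSk
  rw [← hN]
  have hsup : ψ.range ⊔ N = ⊤ := by
    rw [eq_top_iff, ← hT, Subgroup.closure_le]
    intro g hg
    have h1 : g * (ψ (U (f g)))⁻¹ ∈ N := by
      apply hSN
      rw [hS]
      exact Or.inr ⟨g, hg, rfl⟩
    have h2 : g = g * (ψ (U (f g)))⁻¹ * ψ (U (f g)) := by group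
    rw [SetLike.mem_coe, h2]
    exact mul_mem (Subgroup.mem_sup_right h1) (Subgroup.mem_sup_left ⟨_, rfl⟩)
  intro g hg
  have hg1 : g ∈ ψ.range ⊔ N := by rw [hsup]; trivial
  rw [Subgroup.mem_sup_of_normal_right] at hg1
  obtain ⟨y, ⟨u, rfl⟩, z, hz, rfl⟩ := hg1
  have hz1 : f z = 1 := hNk hz
  have hu : φ u = 1 := by
    rw [MonoidHom.mem_ker, map_mul, hz1, mul_one, hψ] at hg
    exact hg
  have hu1 : u ∈ Subgroup.normalClosure R := by rw [hk]; exact hu
  have h3 : Subgroup.normalClosure R ≤ N.comap ψ := by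
    apply Subgroup.normalClosure_le_normal
    intro r hr
    apply hSN
    rw [hS]
    exact Or.inl ⟨r, hr, rfl⟩
  exact mul_mem (h3 hu1) hz

theorem t_KFN : S_KFN := by
  intro G Q _ _ hG hQ f hf
  obtain ⟨T, hT, hTf⟩ := Group.fg_iff.1 hG
  obtain ⟨n, φ, hφ, R, hR, hk⟩ := hQ.out
  exact fng_of_fp_aux T hTf hT n φ hφ R hR hk f hf

end Pool.Agent.L0h91.MS
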